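import Pool.Agent.R228.PD.Count

/-!
# Three quadratics with PDLC: five good aggregations suffice
-/

set_option autoImplicit false

namespace Pool.Agent.Results.MP_850444_an.FiveSuffice

open Pool.Agent.R228.AG

/-- Let `n ≥ 3` and let three quadratic functions on `ℝⁿ` satisfy PDLC. If `conv S` is the
intersection of finitely many sets `S_λ` with good `λ`, then it is already the intersection of at
most five of them. -/
theorem result (n : ℕ) (hn : 3 ≤ n) (q : QuadSystem (Fin n) 3)
    (hPD : ∃ θ : Fin 3 → ℝ, (q.Qagg θ).PosDef) (hfin : q.FinitelyDescribed) :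
    ∃ (r : ℕ) (L : Fin r → Fin 3 → ℝ), 1 ≤ r ∧ r ≤ 5 ∧ (∀ j, q.Good (L j)) ∧
      convexHull ℝ q.S = ⋂ j, q.Sagg (L j) :=
  Pool.Agent.R228.PD.five q (by rwa [Fintype.card_fin]) hPD hfin

end Pool.Agent.Results.MP_850444_an.FiveSuffice
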